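import Pool.Agent.W646.CI.Stm
set_option autoImplicit false

/-!
# Project CI: the wells are disjoint
-/

namespace Pool.Agent.W571.CI

open Pool.Agent.W646.CI Set

theorem tj_nonneg (K j : ℕ) : 0 ≤ tj K j := Real.rpow_nonneg (Nat.cast_nonneg j) _

theorem tj_pow {K : ℕ} (hK : 3 ≤ K) (j : ℕ) : tj K j ^ (K - 1) = Real.sqrt j := by
  unfold tj
  rw [← Real.rpow_natCast, ← Real.rpow_mul (Nat.cast_nonneg j), Real.sqrt_eq_rpow]
  congr 1
  have h1 : (3 : ℝ) ≤ (K : ℝ) := by exact_mod_cast hK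
  rw [Nat.cast_sub (by omega : 1 ≤ K), Nat.cast_one]
  have h2 : (2 * (K : ℝ) - 2) ≠ 0 := by linarith
  rw [div_mul_eq_mul_div, one_mul, div_eq_div_iff h2 (by norm_num)]
  ring

theorem tj_le_sqrt {K : ℕ} (hK : 3 ≤ K) {j : ℕ} (h : 1 ≤ tj K j) : tj K j ≤ Real.sqrt j := by
  rw [← tj_pow hK j]
  calc tj K j = tj K j ^ 1 := (pow_one _).symm
    _ ≤ tj K j ^ (K - 1) := pow_le_pow_right₀ h (by omega)

/-- the real part of the elements of a well -/
theorem DD_re {K : ℕ} (hK : 3 ≤ K) {R : ℝ} (hR0 : 0 < R) (hR1 : R < 1) {j : ℕ}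
    (hj : 1 ≤ Real.sqrt j) {s : ℂ} (hs : s ∈ DD K R j) :
    |s.re - tj K j| ≤ 2 * (-Real.log (1 - R)) / (K * Real.sqrt j) := by
  obtain ⟨-, h2⟩ := hs
  have hK3 : (3 : ℝ) ≤ (K : ℝ) := by exact_mod_cast hK
  have hl : 0 < (K : ℝ) * Real.sqrt j := by positivity
  set w : ℂ := Complex.exp (((lj K j / 2 : ℝ) : ℂ) * (s - sj K j)) with hw
  have hn : ‖w‖ = Real.exp (lj K j / 2 * (s.re - tj K j)) := by
    rw [hw, Complex.norm_exp, Complex.re_ofReal_mul, Complex.sub_re]
    rfl
  have h3 : ‖w‖ ≤ 1 + R := by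
    have := norm_add_le (w - 1) 1
    rw [sub_add_cancel, norm_one] at this
    linarith
  have h4 : 1 - R ≤ ‖w‖ := by
    have := norm_sub_norm_le (1 : ℂ) (1 - w)
    rw [norm_one, sub_sub_cancel, norm_sub_rev 1 w] at this
    linarith
  have h5 : Real.log (1 - R) ≤ lj K j / 2 * (s.re - tj K j) := by
    rw [← Real.log_exp (lj K j / 2 * (s.re - tj K j)), ← hn]
    exact Real.log_le_log (by linarith) h4
  have h6 : lj K j / 2 * (s.re - tj K j) ≤ -Real.log (1 - R) := by
    rw [← Real.log_exp (lj K j / 2 * (s.re - tj K j)), ← hn, ← Real.log_inv]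
    refine Real.log_le_log (by linarith) (h3.trans ?_)
    rw [← one_div, le_div_iff₀ (by linarith)]
    nlinarith
  have h7 : |lj K j / 2 * (s.re - tj K j)| ≤ -Real.log (1 - R) := abs_le.2 ⟨by linarith, h6⟩
  have h8 : lj K j = K * Real.sqrt j := rfl
  rw [h8, abs_mul, abs_of_pos (by positivity : 0 < (K : ℝ) * Real.sqrt j / 2)] at h7
  rw [le_div_iff₀ hl]
  linarith

/-- the wells are disjoint -/
theorem disj : S_DISJ := by
  intro K R hK hR0 hR1
  set A : ℝ := -Real.log (1 - R) with hA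
  have hA0 : 0 < A := by
    have : Real.log (1 - R) < 0 := Real.log_neg (by linarith) (by linarith)
    linarith
  have hK3 : (3 : ℝ) ≤ (K : ℝ) := by exact_mod_cast hK
  obtain ⟨T1, hT1⟩ := exists_nat_ge (1 + 2 * A + 16 * A * 2 ^ (K - 2))
  have hP : (0 : ℝ) ≤ 16 * A * 2 ^ (K - 2) := by positivity
  have hT1' : (1 : ℝ) ≤ (T1 : ℝ) := by linarith
  refine ⟨T1, by exact_mod_cast hT1', ?_, ?_⟩
  · intro j hj s hs
    have h1 : 1 ≤ tj K j := hT1'.trans hj
    have h2 : tj K j ≤ Real.sqrt j := tj_le_sqrt hK h1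
    have h3 : 1 ≤ Real.sqrt j := h1.trans h2
    have h4 := DD_re hK hR0 hR1 h3 hs
    have hq0 : 0 < Real.sqrt j := by linarith
    have h5 : |s.re - tj K j| < 1 := by
      refine lt_of_le_of_lt h4 ?_
      rw [div_lt_one (by positivity)]
      nlinarith
    refine ⟨h5, ?_⟩
    have h6 : |s.re ^ (K - 1) - tj K j ^ (K - 1)| ≤
        2 * A / (K * Real.sqrt j) * ((K - 1 : ℕ) : ℝ) * (2 * tj K j) ^ (K - 1 - 1) := by
      refine (abs_pow_sub_pow_le _ _ _).trans ?_
      have h7 : max |s.re| |tj K j| ≤ 2 * tj K j := by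
        refine max_le ?_ ?_
        · have := abs_add_le (s.re - tj K j) (tj K j)
          rw [sub_add_cancel, abs_of_nonneg (tj_nonneg K j)] at this
          linarith
        · rw [abs_of_nonneg (tj_nonneg K j)]
          linarith
      refine mul_le_mul (mul_le_mul_of_nonneg_right h4 (Nat.cast_nonneg _))
        (pow_le_pow_left₀ (le_max_of_le_left (abs_nonneg _)) h7 _) (by positivity) (by positivity)
    have h7 : 2 * A / (K * Real.sqrt j) * ((K - 1 : ℕ) : ℝ) * (2 * tj K j) ^ (K - 1 - 1) ≤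
        2 * A * 2 ^ (K - 2) / tj K j := by
      have e1 : K - 1 - 1 = K - 2 := by omega
      have e2 : Real.sqrt j = tj K j * tj K j ^ (K - 2) := by
        rw [← tj_pow hK j, ← pow_succ']
        congr 1
        omega
      have e3 : ((K - 1 : ℕ) : ℝ) ≤ K := by exact_mod_cast Nat.sub_le K 1
      have ht : 0 < tj K j := by linarith
      have hp : 0 < tj K j ^ (K - 2) := pow_pos ht _
      rw [e1, mul_pow, e2]
      have e4 : 2 * A / (K * (tj K j * tj K j ^ (K - 2))) * ((K - 1 : ℕ) : ℝ) *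
          (2 ^ (K - 2) * tj K j ^ (K - 2)) =
          (2 * A * 2 ^ (K - 2) / tj K j) * (((K - 1 : ℕ) : ℝ) / K) := by
        field_simp
      rw [e4]
      refine mul_le_of_le_one_right (by positivity) ?_
      rw [div_le_one (by linarith)]
      exact e3
    have h8 : 2 * A * 2 ^ (K - 2) / tj K j ≤ 1 / 8 := by
      rw [div_le_iff₀ (by linarith)]
      linarith
    have h9 : |s.re ^ (K - 1) - tj K j ^ (K - 1)| ≤ 1 / 8 := h6.trans (h7.trans h8)
    have h10 : |s.im - 8 * Real.sqrt j| < Real.pi / (K * Real.sqrt j) := hs.1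
    have h11 : Real.pi / (K * Real.sqrt j) ≤ Real.pi / 3 := by
      refine div_le_div_of_nonneg_left Real.pi_pos.le (by norm_num) ?_
      nlinarith
    have h12 : s.im - 8 * s.re ^ (K - 1) =
        (s.im - 8 * Real.sqrt j) - 8 * (s.re ^ (K - 1) - tj K j ^ (K - 1)) := by
      rw [tj_pow hK j]
      ring
    rw [h12]
    have h13 := abs_sub (s.im - 8 * Real.sqrt j) (8 * (s.re ^ (K - 1) - tj K j ^ (K - 1)))
    rw [abs_mul, abs_of_pos (by norm_num : (0 : ℝ) < 8)] at h13
    have h14 := Real.pi_gt_three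
    linarith
  · have key : ∀ i j : ℕ, i < j → (T1 : ℝ) ≤ tj K i → Disjoint (DD K R i) (DD K R j) := by
      intro i j hij hi
      rw [Set.disjoint_left]
      intro s hsi hsj
      have h1 : 1 ≤ tj K i := hT1'.trans hi
      have h3 : 1 ≤ Real.sqrt i := h1.trans (tj_le_sqrt hK h1)
      have h4 : |s.im - 8 * Real.sqrt i| < Real.pi / (K * Real.sqrt i) := hsi.1
      have h5 : |s.im - 8 * Real.sqrt j| < Real.pi / (K * Real.sqrt j) := hsj.1
      have h6 : Real.sqrt i ^ 2 = i := Real.sq_sqrt (Nat.cast_nonneg i)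
      have h7 : Real.sqrt j ^ 2 = j := Real.sq_sqrt (Nat.cast_nonneg j)
      have h8 : (i : ℝ) + 1 ≤ (j : ℝ) := by exact_mod_cast hij
      have h9 : Real.sqrt i ≤ Real.sqrt j := Real.sqrt_le_sqrt (by linarith)
      have hpi := Real.pi_lt_d2
      have h10 : Real.pi / (K * Real.sqrt i) ≤ 3.15 / (3 * Real.sqrt i) := by
        refine div_le_div₀ (by norm_num) hpi.le (by positivity) ?_
        nlinarith
      have h11 : Real.pi / (K * Real.sqrt j) ≤ 3.15 / (3 * Real.sqrt i) := by
        refine div_le_div₀ (by norm_num) hpi.le (by positivity) ?_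
        nlinarith
      set x : ℝ := Real.sqrt i with hx
      set y : ℝ := Real.sqrt j with hy
      have h12 : 3.15 / (3 * x) = 1.05 * (1 / x) := by
        field_simp
        norm_num
      rw [h12] at h10 h11
      have h13 := (abs_lt.1 h4).2
      have h14 := (abs_lt.1 h5).1
      have h15 : 8 * (y - x) < 2.1 * (1 / x) := by linarith
      have h16 : (y - x) * x < 0.27 := by
        have h17 : 1 / x * x = 1 := by
          field_simp
        nlinarith
      have h17 : y - x < 0.27 := by nlinarith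
      nlinarith
    intro i j hij hi hj
    rcases lt_or_gt_of_ne hij with h | h
    · exact key i j h hi
    · exact (key j i h hj).symm

end Pool.Agent.W571.CI
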