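import Pool.Agent.W646.CI.Stm
set_option autoImplicit false

/-!
# Project CI: radial symmetry
-/

namespace Pool.Agent.W571.CI

open Pool.Agent.W646.CI Set MeasureTheory

/-- the integral over the angle -/
theorem ang (z : ℂ) (hz : z ≠ 0) (t c : ℝ) :
    ∫ θ in (c - Real.pi)..(c + Real.pi), Real.log ‖1 - z * Complex.exp (-(⟨t, θ⟩ : ℂ))‖ =
      2 * Real.pi * max 0 (Real.log ‖z‖ - t) := by
  set a : ℂ := z * Complex.exp (-(t : ℂ)) with ha
  have h1 : ∀ θ : ℝ, ‖1 - z * Complex.exp (-(⟨t, θ⟩ : ℂ))‖ = ‖circleMap 0 1 θ - a‖ := by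
    intro θ
    have e1 : (⟨t, θ⟩ : ℂ) = t + θ * Complex.I := Complex.mk_eq_add_mul_I t θ
    have e2 : circleMap 0 1 θ = Complex.exp (θ * Complex.I) := by
      simp [circleMap]
    have e3 : circleMap 0 1 θ - a =
        Complex.exp (θ * Complex.I) * (1 - z * Complex.exp (-(⟨t, θ⟩ : ℂ))) := by
      have e4 : Complex.exp (θ * Complex.I) * Complex.exp (-(θ * Complex.I)) = 1 := by
        rw [← Complex.exp_add, add_neg_cancel, Complex.exp_zero]
      rw [e2, e1, ha, neg_add, Complex.exp_add]
      linear_combination (z * Complex.exp (-(t : ℂ))) * e4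
    rw [e3, norm_mul, Complex.norm_exp_ofReal_mul_I, one_mul]
  simp only [h1]
  have hper : Function.Periodic (fun θ : ℝ => Real.log ‖circleMap 0 1 θ - a‖) (2 * Real.pi) := by
    intro θ
    change Real.log ‖circleMap 0 1 (θ + 2 * Real.pi) - a‖ = _
    rw [periodic_circleMap 0 1 θ]
  have h2 := hper.intervalIntegral_add_eq (c - Real.pi) 0
  rw [zero_add, show c - Real.pi + 2 * Real.pi = c + Real.pi by ring] at h2
  rw [h2]
  have h3 := circleAverage_log_norm_sub_const_eq_posLog (a := a)
  rw [Real.circleAverage_def, smul_eq_mul] at h3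
  have h4 : Real.posLog ‖a‖ = max 0 (Real.log ‖z‖ - t) := by
    unfold Real.posLog
    rw [ha, norm_mul, Complex.norm_exp, Real.log_mul (norm_ne_zero_iff.2 hz) (Real.exp_ne_zero _),
      Real.log_exp]
    simp [sub_eq_add_neg]
  rw [h4] at h3
  have h5 : (2 * Real.pi) ≠ 0 := by positivity
  have h6 : ∫ θ in (0 : ℝ)..2 * Real.pi, Real.log ‖circleMap 0 1 θ - a‖ =
      2 * Real.pi * ((2 * Real.pi)⁻¹ * ∫ θ in (0 : ℝ)..2 * Real.pi,
        Real.log ‖circleMap 0 1 θ - a‖) := by
    field_simp
  rw [h6]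
  congr 1

theorem rho_cont (K : ℕ) : Continuous (rho K) := by
  unfold rho
  fun_prop

theorem Om_meas (K : ℕ) (a b : ℝ) : MeasurableSet (Om K a b) := by
  have h1 : Measurable (fun s : ℂ => s.im - 8 * s.re ^ (K - 1)) := by fun_prop
  have e : Om K a b = {s : ℂ | a ≤ s.re} ∩ ({s : ℂ | s.re < b} ∩
      ({s : ℂ | -Real.pi ≤ s.im - 8 * s.re ^ (K - 1)} ∩
        {s : ℂ | s.im - 8 * s.re ^ (K - 1) < Real.pi})) := rfl
  rw [e]
  exact (measurableSet_le measurable_const Complex.measurable_re).inter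
    ((measurableSet_lt Complex.measurable_re measurable_const).inter
      ((measurableSet_le measurable_const h1).inter (measurableSet_lt h1 measurable_const)))

theorem Om_bdd (K : ℕ) (a b : ℝ) (ha : 0 ≤ a) : Bornology.IsBounded (Om K a b) := by
  refine isBounded_iff_forall_norm_le.2 ⟨b + (Real.pi + 8 * b ^ (K - 1)), ?_⟩
  rintro s ⟨h1, h2, h3, h4⟩
  have h5 : 0 ≤ s.re := ha.trans h1
  refine (Complex.norm_le_abs_re_add_abs_im s).trans ?_
  refine add_le_add ?_ ?_
  · rw [abs_of_nonneg h5]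
    exact h2.le
  · have h6 : s.re ^ (K - 1) ≤ b ^ (K - 1) := pow_le_pow_left₀ h5 h2.le _
    have h7 : 0 ≤ s.re ^ (K - 1) := pow_nonneg h5 _
    rw [abs_le]
    constructor
    · linarith
    · linarith

/-- radial symmetry -/
theorem rad1 (h : S_LOGI) : S_RAD1 := by
  intro K T0 n z hK hT0 hTn hz
  set F : ℂ → ℝ := fun s => rho K s.re * Real.log ‖1 - z * Complex.exp (-s)‖ with hFd
  have hTn' : (T0 : ℝ) ≤ n := by exact_mod_cast hTn
  have hF : IntegrableOn F (Om K T0 n) := by
    obtain ⟨C, hC⟩ := (isCompact_Icc (a := (T0 : ℝ)) (b := (n : ℝ))).exists_bound_of_continuousOn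
      (rho_cont K).continuousOn
    refine Integrable.bdd_mul (c := C) (h z _ (Om_bdd K T0 n (Nat.cast_nonneg _))) ?_ ?_
    · exact ((rho_cont K).comp Complex.continuous_re).aestronglyMeasurable
    · refine (ae_restrict_iff' (Om_meas K T0 n)).2 (Filter.Eventually.of_forall (fun s hs => ?_))
      exact hC s.re ⟨hs.1, hs.2.1.le⟩
  have hFi : Integrable ((Om K T0 n).indicator F) := (integrable_indicator_iff (Om_meas K T0 n)).2 hF
  have hG : Integrable (fun p : ℝ × ℝ => (Om K T0 n).indicator F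
      (Complex.measurableEquivRealProd.symm p)) :=
    (Complex.volume_preserving_equiv_real_prod.symm.integrable_comp_emb
      Complex.measurableEquivRealProd.symm.measurableEmbedding).2 hFi
  have h1 : ∫ s in Om K T0 n, F s = ∫ t : ℝ, ∫ θ : ℝ, (Om K T0 n).indicator F (⟨t, θ⟩ : ℂ) := by
    rw [← integral_indicator (Om_meas K T0 n),
      ← Complex.volume_preserving_equiv_real_prod.symm.integral_comp
        Complex.measurableEquivRealProd.symm.measurableEmbedding]
    rw [Measure.volume_eq_prod] at hG ⊢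
    rw [integral_prod _ hG]
    rfl
  have h2 : ∀ t : ℝ, ∫ θ : ℝ, (Om K T0 n).indicator F (⟨t, θ⟩ : ℂ) =
      (Ico (T0 : ℝ) n).indicator
        (fun t => 2 * Real.pi * (rho K t * max 0 (Real.log ‖z‖ - t))) t := by
    intro t
    by_cases ht : t ∈ Ico (T0 : ℝ) n
    · rw [indicator_of_mem ht]
      have h3 : (fun θ : ℝ => (Om K T0 n).indicator F (⟨t, θ⟩ : ℂ)) =
          (Ico (8 * t ^ (K - 1) - Real.pi) (8 * t ^ (K - 1) + Real.pi)).indicator
            (fun θ => rho K t * Real.log ‖1 - z * Complex.exp (-(⟨t, θ⟩ : ℂ))‖) := by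
        funext θ
        by_cases hθ : θ ∈ Ico (8 * t ^ (K - 1) - Real.pi) (8 * t ^ (K - 1) + Real.pi)
        · have h4 : (⟨t, θ⟩ : ℂ) ∈ Om K T0 n := by
            refine ⟨ht.1, ht.2, ?_, ?_⟩
            · change -Real.pi ≤ θ - 8 * t ^ (K - 1)
              linarith [hθ.1]
            · change θ - 8 * t ^ (K - 1) < Real.pi
              linarith [hθ.2]
          rw [indicator_of_mem hθ, indicator_of_mem h4]
        · have h4 : (⟨t, θ⟩ : ℂ) ∉ Om K T0 n := by
            rintro ⟨-, -, h5, h6⟩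
            apply hθ
            constructor
            · change -Real.pi ≤ θ - 8 * t ^ (K - 1) at h5
              linarith
            · change θ - 8 * t ^ (K - 1) < Real.pi at h6
              linarith
          rw [indicator_of_notMem hθ, indicator_of_notMem h4]
      rw [h3, integral_indicator measurableSet_Ico, integral_Ico_eq_integral_Ioc,
        ← intervalIntegral.integral_of_le (by linarith [Real.pi_pos]),
        intervalIntegral.integral_const_mul, ang z hz]
      ring
    · rw [indicator_of_notMem ht]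
      refine integral_eq_zero_of_ae (Filter.Eventually.of_forall (fun θ => ?_))
      have h4 : (⟨t, θ⟩ : ℂ) ∉ Om K T0 n := fun h5 => ht ⟨h5.1, h5.2.1⟩
      change (Om K T0 n).indicator F (⟨t, θ⟩ : ℂ) = 0
      rw [indicator_of_notMem h4]
  rw [h1, integral_congr_ae (Filter.Eventually.of_forall h2), integral_indicator measurableSet_Ico,
    integral_Ico_eq_integral_Ioc, ← intervalIntegral.integral_of_le hTn',
    intervalIntegral.integral_const_mul, ← mul_assoc]
  have h5 : 1 / (2 * Real.pi) * (2 * Real.pi) = 1 := by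
    field_simp
  rw [h5, one_mul]

end Pool.Agent.W571.CI
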